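import Pool.Agent.R974.BW.Defs

set_option autoImplicit false

/-! BW-KB2 (subtask 5256, MP_0f8574_pr): bounds for the killed heat kernel. -/

namespace Pool.Agent.R21.BW

open MeasureTheory ProbabilityTheory Filter Topology Set
open Pool.Agent.R974.BW
open scoped ENNReal NNReal

lemma hk_eq (t : ℝ≥0) (ht : 0 < t) (x y : ℝ) :
    hk t x y = gaussianPDFReal x t y * (1 - Real.exp (-(2 * x * y / t))) := by
  have ht' : (0 : ℝ) < t := ht
  unfold hk gaussianPDFReal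
  have h : -(y + x) ^ 2 / (2 * (t : ℝ)) = -(y - x) ^ 2 / (2 * t) + -(2 * x * y / t) := by
    field_simp; ring
  rw [h, Real.exp_add]; ring

lemma hk_le1 (t : ℝ≥0) (ht : 0 < t) (x y : ℝ) : hk t x y ≤ gaussianPDFReal x t y := by
  rw [hk_eq t ht]
  have h1 := gaussianPDFReal_nonneg x t y
  have h2 := Real.exp_pos (-(2 * x * y / (t : ℝ)))
  nlinarith

lemma hk_le2 (t : ℝ≥0) (ht : 0 < t) (x y : ℝ) :
    hk t x y ≤ gaussianPDFReal x t y * (2 * x * y / t) := by
  rw [hk_eq t ht]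
  have h1 := gaussianPDFReal_nonneg x t y
  have h2 := Real.add_one_le_exp (-(2 * x * y / (t : ℝ)))
  exact mul_le_mul_of_nonneg_left (by linarith) h1

lemma lint_pdf (t : ℝ≥0) (ht : 0 < t) (x : ℝ) :
    ∫⁻ y in Ioi (0 : ℝ), ENNReal.ofReal (gaussianPDFReal x t y) ≤ 1 := by
  rw [← lintegral_gaussianPDFReal_eq_one x ht.ne']
  exact setLIntegral_le_lintegral _ _

lemma exp_bound (z : ℝ) (hz : 0 < z) : z ^ 5 * Real.exp (-(z ^ 4 / 8)) ≤ 128 := by
  have hv : 0 ≤ z ^ 4 / 8 := by positivity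
  have h1 := Real.quadratic_le_exp_of_nonneg hv
  have h2 : z ^ 5 ≤ 1 + z ^ 8 := by
    rcases le_total z 1 with h | h
    · have h3 : z ^ 5 ≤ 1 := pow_le_one₀ hz.le h
      have h4 : 0 ≤ z ^ 8 := by positivity
      linarith
    · have h3 : z ^ 5 ≤ z ^ 8 := pow_le_pow_right₀ h (by norm_num)
      linarith
  have h3 : z ^ 5 ≤ 128 * Real.exp (z ^ 4 / 8) := by
    have h4 : z ^ 8 = 64 * (z ^ 4 / 8) ^ 2 := by ring
    nlinarith
  rw [Real.exp_neg]
  have h5 := Real.exp_pos (z ^ 4 / 8)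
  rw [← div_eq_mul_inv, div_le_iff₀ h5]
  exact h3

lemma far_bound (a b y : ℝ) (ha : 0 < a) (hb : 0 < b) (hy : a ^ 2 / 2 ≤ y) :
    min (1 / y) (2 * a ^ 2 / b ^ 4) ≤ 2 * (1 / (a * b)) := by
  have hy0 : 0 < y := lt_of_lt_of_le (by positivity) hy
  rcases le_total a b with h | h
  · refine (min_le_right _ _).trans ?_
    rw [mul_one_div, div_le_div_iff₀ (by positivity) (by positivity)]
    have h3 : a ^ 3 ≤ b ^ 3 := pow_le_pow_left₀ ha.le h 3
    nlinarith [mul_le_mul_of_nonneg_left h3 hb.le]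
  · refine (min_le_left _ _).trans ?_
    rw [mul_one_div, div_le_div_iff₀ hy0 (by positivity)]
    nlinarith [mul_le_mul_of_nonneg_left h ha.le]

lemma near_bound (a b : ℝ) (ha : 0 < a) (hb : 0 < b) :
    (Real.sqrt (2 * Real.pi * b ^ 4))⁻¹ * Real.exp (-((a / b) ^ 4 / 8)) * (2 * a ^ 2 / b ^ 4) * (a ^ 2 / 2) ≤
      128 * (1 / (a * b)) := by
  have hz := exp_bound (a / b) (by positivity)
  have hsq : Real.sqrt (2 * Real.pi * b ^ 4) = Real.sqrt (2 * Real.pi) * b ^ 2 := by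
    rw [Real.sqrt_mul (by positivity), show b ^ 4 = (b ^ 2) ^ 2 by ring, Real.sqrt_sq (by positivity)]
  have h1 : (1 : ℝ) ≤ Real.sqrt (2 * Real.pi) := by
    rw [Real.one_le_sqrt]
    nlinarith [Real.pi_gt_three]
  have h2 : (Real.sqrt (2 * Real.pi))⁻¹ ≤ 1 := inv_le_one_of_one_le₀ h1
  have h2' : 0 ≤ (Real.sqrt (2 * Real.pi))⁻¹ := by positivity
  rw [hsq]
  have h3 : (Real.sqrt (2 * Real.pi) * b ^ 2)⁻¹ * Real.exp (-((a / b) ^ 4 / 8)) * (2 * a ^ 2 / b ^ 4) * (a ^ 2 / 2)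
      = (Real.sqrt (2 * Real.pi))⁻¹ * (((a / b) ^ 5 * Real.exp (-((a / b) ^ 4 / 8))) * (1 / (a * b))) := by
    field_simp
  rw [h3]
  have h4 : ((a / b) ^ 5 * Real.exp (-((a / b) ^ 4 / 8))) * (1 / (a * b)) ≤ 128 * (1 / (a * b)) :=
    mul_le_mul_of_nonneg_right hz (by positivity)
  have h5 : 0 ≤ ((a / b) ^ 5 * Real.exp (-((a / b) ^ 4 / 8))) * (1 / (a * b)) := by positivity
  calc _ ≤ 1 * (((a / b) ^ 5 * Real.exp (-((a / b) ^ 4 / 8))) * (1 / (a * b))) :=
        mul_le_mul_of_nonneg_right h2 h5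
    _ ≤ 128 * (1 / (a * b)) := by rw [one_mul]; exact h4

lemma kb_one (t : ℝ≥0) (x : ℝ) (ht : 0 < t) (hx : 0 < x) :
    KQ t (fun y => ENNReal.ofReal (1 / y)) x ≤
      (130 : ℝ≥0) * ENNReal.ofReal ((t : ℝ) ^ (-(1 / 4) : ℝ) * x ^ (-(1 / 2) : ℝ)) := by
  have ht' : (0 : ℝ) < t := ht
  obtain ⟨a, ha, hax⟩ : ∃ a : ℝ, 0 < a ∧ a ^ 2 = x := ⟨Real.sqrt x, Real.sqrt_pos.mpr hx, Real.sq_sqrt hx.le⟩
  obtain ⟨b, hb, hbt⟩ : ∃ b : ℝ, 0 < b ∧ b ^ 4 = (t : ℝ) := by
    refine ⟨Real.sqrt (Real.sqrt t), Real.sqrt_pos.mpr (Real.sqrt_pos.mpr ht'), ?_⟩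
    rw [show (4 : ℕ) = 2 * 2 by norm_num, pow_mul, Real.sq_sqrt (Real.sqrt_nonneg _), Real.sq_sqrt ht'.le]
  have hB : (t : ℝ) ^ (-(1 / 4) : ℝ) * x ^ (-(1 / 2) : ℝ) = 1 / (a * b) := by
    rw [← hbt, ← hax, ← Real.rpow_natCast b 4, ← Real.rpow_natCast a 2, ← Real.rpow_mul hb.le,
      ← Real.rpow_mul ha.le]
    norm_num
    rw [Real.rpow_neg_one, Real.rpow_neg_one]
  rw [hB]
  set K : ℝ := (Real.sqrt (2 * Real.pi * t))⁻¹ * Real.exp (-((a / b) ^ 4 / 8)) * (2 * x / t) with hK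
  have hK0 : 0 ≤ K := by positivity
  have hpt : ∀ y ∈ Ioi (0 : ℝ), ENNReal.ofReal (hk t x y) * ENNReal.ofReal (1 / y) ≤
      ENNReal.ofReal (gaussianPDFReal x t y) * ENNReal.ofReal (2 * (1 / (a * b))) +
        (Iio (x / 2)).indicator (fun _ => ENNReal.ofReal K) y := by
    intro y hy
    have hy0 : (0 : ℝ) < y := hy
    have hy1 : 0 ≤ 1 / y := by positivity
    have hpdf := gaussianPDFReal_nonneg x t y
    rw [← ENNReal.ofReal_mul' hy1]
    have e1 : hk t x y * (1 / y) ≤ gaussianPDFReal x t y * (1 / y) :=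
      mul_le_mul_of_nonneg_right (hk_le1 t ht x y) hy1
    have e2 : hk t x y * (1 / y) ≤ gaussianPDFReal x t y * (2 * x / t) := by
      refine (mul_le_mul_of_nonneg_right (hk_le2 t ht x y) hy1).trans (le_of_eq ?_)
      field_simp
    by_cases hyx : y < x / 2
    · rw [indicator_of_mem (show y ∈ Iio (x / 2) from hyx)]
      refine le_trans (ENNReal.ofReal_le_ofReal ?_) le_add_self
      refine e2.trans ?_
      rw [hK]
      refine mul_le_mul_of_nonneg_right ?_ (by positivity)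
      unfold gaussianPDFReal
      refine mul_le_mul_of_nonneg_left (Real.exp_le_exp.mpr ?_) (by positivity)
      have e3 : (a / b) ^ 4 = x ^ 2 / t := by
        rw [div_pow, hbt, ← hax]; ring
      rw [e3, neg_div, neg_le_neg_iff, div_div, div_le_div_iff₀ (by positivity) (by positivity)]
      have e4 : x ^ 2 / 4 ≤ (y - x) ^ 2 := by nlinarith
      nlinarith
    · rw [not_lt] at hyx
      refine le_trans ?_ le_self_add
      rw [← ENNReal.ofReal_mul hpdf]
      refine ENNReal.ofReal_le_ofReal ?_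
      have e5 := far_bound a b y ha hb (by rw [hax]; exact hyx)
      rw [hax, hbt] at e5
      refine le_trans ?_ (mul_le_mul_of_nonneg_left e5 hpdf)
      rcases le_total (1 / y) (2 * x / (t : ℝ)) with h | h
      · rw [min_eq_left h]; exact e1
      · rw [min_eq_right h]; exact e2
  have hvol : ∫⁻ y in Ioi (0 : ℝ), (Iio (x / 2)).indicator (fun _ => ENNReal.ofReal K) y ≤
      ENNReal.ofReal (K * (x / 2)) := by
    rw [lintegral_indicator_const measurableSet_Iio, Measure.restrict_apply measurableSet_Iio,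
      inter_comm, Ioi_inter_Iio, Real.volume_Ioo, sub_zero, ENNReal.ofReal_mul hK0]
  have hKb : K * (x / 2) ≤ 128 * (1 / (a * b)) := by
    have := near_bound a b ha hb
    rw [hax, hbt] at this
    exact this
  unfold KQ
  calc ∫⁻ y in Ioi (0 : ℝ), ENNReal.ofReal (hk t x y) * ENNReal.ofReal (1 / y)
      ≤ ∫⁻ y in Ioi (0 : ℝ), (ENNReal.ofReal (gaussianPDFReal x t y) * ENNReal.ofReal (2 * (1 / (a * b))) +
        (Iio (x / 2)).indicator (fun _ => ENNReal.ofReal K) y) := setLIntegral_mono' measurableSet_Ioi hpt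
    _ = (∫⁻ y in Ioi (0 : ℝ), ENNReal.ofReal (gaussianPDFReal x t y)) * ENNReal.ofReal (2 * (1 / (a * b))) +
        ∫⁻ y in Ioi (0 : ℝ), (Iio (x / 2)).indicator (fun _ => ENNReal.ofReal K) y := by
        rw [lintegral_add_right _ (measurable_const.indicator measurableSet_Iio),
          lintegral_mul_const _ (measurable_gaussianPDFReal x t).ennreal_ofReal]
    _ ≤ 1 * ENNReal.ofReal (2 * (1 / (a * b))) + ENNReal.ofReal (128 * (1 / (a * b))) := by
        gcongr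
        · exact lint_pdf t ht x
        · exact hvol.trans (ENNReal.ofReal_le_ofReal hKb)
    _ = (130 : ℝ≥0) * ENNReal.ofReal (1 / (a * b)) := by
        rw [one_mul, ← ENNReal.ofReal_add (by positivity) (by positivity),
          show (2 * (1 / (a * b)) + 128 * (1 / (a * b))) = 130 * (1 / (a * b)) by ring,
          ENNReal.ofReal_mul (by norm_num)]
        congr 1
        norm_num

lemma int_half : ∫⁻ y in Ioo (0 : ℝ) 1, ENNReal.ofReal (y ^ (-(1 / 2) : ℝ)) < ⊤ := by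
  have h : IntervalIntegrable (fun y : ℝ => y ^ (-(1 / 2) : ℝ)) volume 0 1 :=
    intervalIntegral.intervalIntegrable_rpow' (by norm_num)
  rw [intervalIntegrable_iff_integrableOn_Ioo_of_le zero_le_one] at h
  exact h.lintegral_lt_top

lemma kb_two (t : ℝ≥0) (x : ℝ) (ht : 1 / 2 ≤ t) (hx : 0 < x) :
    KQ t (fun y => ENNReal.ofReal (y ^ (-(3 / 2) : ℝ))) x ≤
      (4 * (1 + (∫⁻ y in Ioo (0 : ℝ) 1, ENNReal.ofReal (y ^ (-(1 / 2) : ℝ))).toNNReal) : ℝ≥0) *
        ENNReal.ofReal x := by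
  have ht0 : 0 < t := lt_of_lt_of_le (by norm_num) ht
  have ht' : (0 : ℝ) < t := ht0
  have ht2 : (1 / 2 : ℝ) ≤ t := by
    have : ((1 / 2 : ℝ≥0) : ℝ) ≤ t := by exact_mod_cast ht
    simpa using this
  have hpt : ∀ y ∈ Ioi (0 : ℝ), ENNReal.ofReal (hk t x y) * ENNReal.ofReal (y ^ (-(3 / 2) : ℝ)) ≤
      ENNReal.ofReal (4 * x) * (ENNReal.ofReal (gaussianPDFReal x t y) +
        (Iio (1 : ℝ)).indicator (fun y => ENNReal.ofReal (y ^ (-(1 / 2) : ℝ))) y) := by
    intro y hy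
    have hy0 : (0 : ℝ) < y := hy
    have hpdf := gaussianPDFReal_nonneg x t y
    have hy32 : 0 ≤ y ^ (-(3 / 2) : ℝ) := by positivity
    have hy12 : 0 ≤ y ^ (-(1 / 2) : ℝ) := by positivity
    rw [← ENNReal.ofReal_mul' hy32]
    have e0 : y * y ^ (-(3 / 2) : ℝ) = y ^ (-(1 / 2) : ℝ) := by
      nth_rewrite 1 [← Real.rpow_one y]
      rw [← Real.rpow_add hy0]; norm_num
    have e1 : hk t x y * y ^ (-(3 / 2) : ℝ) ≤ 4 * x * (gaussianPDFReal x t y * y ^ (-(1 / 2) : ℝ)) := by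
      refine (mul_le_mul_of_nonneg_right (hk_le2 t ht0 x y) hy32).trans ?_
      have e2 : gaussianPDFReal x t y * (2 * x * y / t) * y ^ (-(3 / 2) : ℝ) =
          (2 / t) * (x * (gaussianPDFReal x t y * y ^ (-(1 / 2) : ℝ))) := by
        rw [← e0]; field_simp
      rw [e2, mul_assoc]
      refine mul_le_mul_of_nonneg_right ?_ (by positivity)
      rw [div_le_iff₀ ht']; linarith
    by_cases hy1 : y < 1
    · rw [indicator_of_mem (show y ∈ Iio (1 : ℝ) from hy1)]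
      refine le_trans (ENNReal.ofReal_le_ofReal e1) ?_
      rw [ENNReal.ofReal_mul (by positivity)]
      gcongr
      refine le_trans (ENNReal.ofReal_le_ofReal ?_) le_add_self
      have e3 : gaussianPDFReal x t y ≤ 1 := by
        unfold gaussianPDFReal
        have e4 : (1 : ℝ) ≤ Real.sqrt (2 * Real.pi * t) := by
          rw [Real.one_le_sqrt]
          nlinarith [Real.pi_gt_three]
        have e5 : (Real.sqrt (2 * Real.pi * t))⁻¹ ≤ 1 := inv_le_one_of_one_le₀ e4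
        have e6 : Real.exp (-(y - x) ^ 2 / (2 * t)) ≤ 1 := by
          rw [Real.exp_le_one_iff, neg_div, neg_nonpos]
          positivity
        exact mul_le_one₀ e5 (Real.exp_nonneg _) e6
      nlinarith
    · rw [not_lt] at hy1
      refine le_trans (ENNReal.ofReal_le_ofReal e1) ?_
      rw [ENNReal.ofReal_mul (by positivity)]
      gcongr
      refine le_trans (ENNReal.ofReal_le_ofReal ?_) le_self_add
      have e3 : y ^ (-(1 / 2) : ℝ) ≤ 1 := Real.rpow_le_one_of_one_le_of_nonpos hy1 (by norm_num)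
      nlinarith
  have hm : Measurable fun y : ℝ => ENNReal.ofReal (y ^ (-(1 / 2) : ℝ)) :=
    (measurable_id.pow_const _).ennreal_ofReal
  have hJ : ∫⁻ y in Ioi (0 : ℝ), (Iio (1 : ℝ)).indicator (fun y => ENNReal.ofReal (y ^ (-(1 / 2) : ℝ))) y =
      ∫⁻ y in Ioo (0 : ℝ) 1, ENNReal.ofReal (y ^ (-(1 / 2) : ℝ)) := by
    rw [lintegral_indicator measurableSet_Iio, Measure.restrict_restrict measurableSet_Iio, inter_comm,
      Ioi_inter_Iio]
  unfold KQ
  calc ∫⁻ y in Ioi (0 : ℝ), ENNReal.ofReal (hk t x y) * ENNReal.ofReal (y ^ (-(3 / 2) : ℝ))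
      ≤ ∫⁻ y in Ioi (0 : ℝ), ENNReal.ofReal (4 * x) * (ENNReal.ofReal (gaussianPDFReal x t y) +
        (Iio (1 : ℝ)).indicator (fun y => ENNReal.ofReal (y ^ (-(1 / 2) : ℝ))) y) :=
        setLIntegral_mono' measurableSet_Ioi hpt
    _ = ENNReal.ofReal (4 * x) * ((∫⁻ y in Ioi (0 : ℝ), ENNReal.ofReal (gaussianPDFReal x t y)) +
        ∫⁻ y in Ioo (0 : ℝ) 1, ENNReal.ofReal (y ^ (-(1 / 2) : ℝ))) := by
        rw [lintegral_const_mul' _ _ ENNReal.ofReal_ne_top,
          lintegral_add_right _ (hm.indicator measurableSet_Iio), hJ]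
    _ ≤ ENNReal.ofReal (4 * x) * (1 + ∫⁻ y in Ioo (0 : ℝ) 1, ENNReal.ofReal (y ^ (-(1 / 2) : ℝ))) := by
        gcongr
        exact lint_pdf t ht0 x
    _ = _ := by
        rw [ENNReal.ofReal_mul (by norm_num), ENNReal.coe_mul, ENNReal.coe_add,
          ENNReal.coe_toNNReal int_half.ne]
        norm_num
        ring

theorem t_KB2 : S_KB2 :=
  ⟨⟨130, fun t x ht hx => kb_one t x ht hx⟩, ⟨_, fun t x ht _ hx _ => kb_two t x ht hx⟩⟩

end Pool.Agent.R21.BW
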