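import Pool.Agent.R59.DA.Stm

set_option autoImplicit false

/-! DA-NUM (subtask 5622, MP_cbc67c_co): choice of the parameters. -/

namespace Pool.Agent.R21.DA

open Filter Topology R59.DA

theorem num : SNUM := by
  intro k β η hβ hβ1 hη hη1
  set a : ℝ := β / (4 * ((k : ℝ) + 2)) with ha_def
  have ha : 0 < a := by positivity
  have hx : Tendsto (fun n : ℕ => (n : ℝ) ^ a) atTop atTop :=
    (tendsto_rpow_atTop ha).comp tendsto_natCast_atTop_atTop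
  have hy : Tendsto (fun n : ℕ => (n : ℝ) ^ (β / 4)) atTop atTop :=
    (tendsto_rpow_atTop (by positivity : 0 < β / 4)).comp tendsto_natCast_atTop_atTop
  have e1 := hy.eventually_ge_atTop (8 * 6 ^ (k + 2))
  have h2 : Tendsto (fun n : ℕ => ((n : ℝ) ^ a) ^ (1 / a) * Real.exp (-(η ^ 2 / 2) * (n : ℝ) ^ a)) atTop (𝓝 0) :=
    (tendsto_rpow_mul_exp_neg_mul_atTop_nhds_zero (1 / a) (η ^ 2 / 2) (by positivity)).comp hx
  have e2 := h2.eventually_le_const (by norm_num : (0 : ℝ) < 1 / 8)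
  have e3 := hx.eventually_ge_atTop (2 * Real.log ((k : ℝ) + 1) + 1)
  have e4 := hx.eventually_ge_atTop (7 : ℝ)
  obtain ⟨n₀, hn₀⟩ := eventually_atTop.1 (e1.and (e2.and (e3.and (e4.and (eventually_ge_atTop 1)))))
  refine ⟨n₀, fun n hn => ?_⟩
  obtain ⟨h1, h2', h3, h4, h5⟩ := hn₀ n hn
  have hn1 : (1 : ℝ) ≤ n := by exact_mod_cast h5
  have hn0 : (0 : ℝ) < n := by linarith
  set x : ℝ := (n : ℝ) ^ a with hx_def
  have hx1 : 1 ≤ x := by linarith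
  have hx0 : 0 < x := by linarith
  have hx3 : (n : ℝ) ^ (3 * a) = x ^ 3 := by
    rw [hx_def, mul_comm, Real.rpow_mul hn0.le, ← Real.rpow_natCast (((n : ℝ) ^ a)) 3]
    norm_num
  have hxx3 : x ≤ x ^ 3 := by nlinarith [mul_nonneg hx0.le (sub_nonneg.mpr hx1), mul_nonneg (mul_nonneg hx0.le hx0.le) (sub_nonneg.mpr hx1)]
  -- the parameters
  have hu1 : x ≤ (⌈x⌉₊ : ℝ) := Nat.le_ceil x
  have hu2 : (⌈x⌉₊ : ℝ) ≤ 2 * x := by
    have := Nat.ceil_lt_add_one hx0.le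
    linarith
  have hx30 : 0 ≤ x ^ 3 := by positivity
  have hq1 : x ^ 3 ≤ (⌈x ^ 3⌉₊ : ℝ) := Nat.le_ceil _
  have hq2 : (⌈x ^ 3⌉₊ : ℝ) ≤ 2 * x ^ 3 := by
    have := Nat.ceil_lt_add_one hx30
    linarith
  have hnx : ((n : ℝ) ^ a) ^ (1 / a) = n := by
    rw [← Real.rpow_mul hn0.le, mul_one_div, div_self ha.ne', Real.rpow_one]
  rw [← hx_def] at hnx
  rw [hnx] at h2'
  have hexp : ∀ w : ℝ, x ≤ w → (n : ℝ) * Real.exp (-(η ^ 2 * w / 2)) ≤ 1 / 8 := by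
    intro w hw
    refine le_trans (mul_le_mul_of_nonneg_left (Real.exp_le_exp.mpr ?_) hn0.le) h2'
    nlinarith [mul_le_mul_of_nonneg_left hw (by positivity : 0 ≤ η ^ 2 / 2)]
  refine ⟨⌈x⌉₊, ⌈x ^ 3⌉₊, ?_, ?_, hexp _ hu1, hexp _ (hxx3.trans hq1), ?_⟩
  · exact Nat.one_le_iff_ne_zero.mpr (Nat.ceil_pos.mpr hx0).ne'
  · have hs : ((⌈x⌉₊ : ℝ) + 2 * (⌈x ^ 3⌉₊ : ℝ)) ≤ 6 * x ^ 3 := by linarith
    have hs2 : ((⌈x⌉₊ : ℝ) + 2 * (⌈x ^ 3⌉₊ : ℝ)) ^ (k + 2) ≤ (6 * x ^ 3) ^ (k + 2) :=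
      pow_le_pow_left₀ (by positivity) hs _
    have hx4 : (x ^ 3) ^ (k + 2) = (n : ℝ) ^ (3 * β / 4) := by
      rw [← hx3, ← Real.rpow_natCast, ← Real.rpow_mul hn0.le]
      congr 1
      rw [ha_def]
      push_cast
      field_simp
    have hmul : (n : ℝ) ^ (3 * β / 4) * (n : ℝ) ^ (((k + 2 : ℕ) : ℝ) - β) * (n : ℝ) ^ (β / 4) =
        (n : ℝ) ^ (k + 2) := by
      rw [← Real.rpow_add hn0, ← Real.rpow_add hn0, ← Real.rpow_natCast]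
      congr 1
      ring
    have hpos : 0 < (n : ℝ) ^ (((k + 2 : ℕ) : ℝ) - β) := Real.rpow_pos_of_pos hn0 _
    have hpos2 : 0 < (n : ℝ) ^ (3 * β / 4) := Real.rpow_pos_of_pos hn0 _
    calc ((⌈x⌉₊ : ℝ) + 2 * (⌈x ^ 3⌉₊ : ℝ)) ^ (k + 2) * (n : ℝ) ^ (((k + 2 : ℕ) : ℝ) - β)
        ≤ (6 * x ^ 3) ^ (k + 2) * (n : ℝ) ^ (((k + 2 : ℕ) : ℝ) - β) :=
          mul_le_mul_of_nonneg_right hs2 hpos.le
      _ = (1 / 8) * ((n : ℝ) ^ (3 * β / 4) * (n : ℝ) ^ (((k + 2 : ℕ) : ℝ) - β) * (8 * 6 ^ (k + 2))) := by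
          rw [mul_pow, hx4]; ring
      _ ≤ (1 / 8) * ((n : ℝ) ^ (3 * β / 4) * (n : ℝ) ^ (((k + 2 : ℕ) : ℝ) - β) * (n : ℝ) ^ (β / 4)) := by
          gcongr
      _ = (1 / 8) * (n : ℝ) ^ (k + 2) := by rw [hmul]
  · have hk1 : (0 : ℝ) < (k : ℝ) + 1 := by positivity
    have hL : 0 ≤ Real.log ((k : ℝ) + 1) := Real.log_nonneg (by linarith [Nat.cast_nonneg (α := ℝ) k])
    have hneg : (n : ℝ) ^ (-a) = x⁻¹ := by rw [Real.rpow_neg hn0.le]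
    rw [hneg]
    have hp1 : ((k : ℝ) + 1) ^ ⌈x⌉₊ = Real.exp ((⌈x⌉₊ : ℝ) * Real.log ((k : ℝ) + 1)) := by
      rw [Real.exp_nat_mul, Real.exp_log hk1]
    rw [hp1, ← Real.exp_add]
    have hle : (⌈x⌉₊ : ℝ) * Real.log ((k : ℝ) + 1) + -(x⁻¹ * (⌈x ^ 3⌉₊ : ℝ)) ≤ -x := by
      have i1 : (⌈x⌉₊ : ℝ) * Real.log ((k : ℝ) + 1) ≤ 2 * x * Real.log ((k : ℝ) + 1) :=
        mul_le_mul_of_nonneg_right hu2 hL
      have i2 : x ^ 2 ≤ x⁻¹ * (⌈x ^ 3⌉₊ : ℝ) := by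
        rw [← div_eq_inv_mul, le_div_iff₀ hx0]
        calc x ^ 2 * x = x ^ 3 := by ring
          _ ≤ _ := hq1
      nlinarith [mul_le_mul_of_nonneg_left h3 hx0.le]
    have i3 := Real.exp_le_exp.mpr hle
    have i4 : Real.exp (-x) ≤ 1 / 8 := by
      rw [Real.exp_neg, inv_eq_one_div]
      apply one_div_le_one_div_of_le (by norm_num)
      have := Real.add_one_le_exp x
      linarith
    exact i3.trans i4

end Pool.Agent.R21.DA
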