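import Pool.Agent.R497.TM.Defs
import Pool.Agent.R392.TD.Ctrl

set_option autoImplicit false

/-! TM-EQD (subtask 4367): the fractional parts of `a P(n)` are rarely close to 1, for almost every `a`. The rotation
flow of the circle has a trivial invariant sigma-algebra, so `t_CTRL` gives the frequencies of visits. -/

namespace Pool.Agent.R21.TM

open MeasureTheory Filter Finset
open Pool.Agent.Y957.MC (IsFlow flowInv smo)
open Pool.Agent.R497.TM

/-- the rotation flow of the circle -/
noncomputable def rt (t : ℝ) (x : UnitAddCircle) : UnitAddCircle := x + (t : UnitAddCircle)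

lemma prob_circle : IsProbabilityMeasure (volume : Measure UnitAddCircle) :=
  ⟨UnitAddCircle.measure_univ⟩

lemma rt_flow : IsFlow (volume : Measure UnitAddCircle) rt where
  meas := by
    have h : Continuous (fun p : ℝ × UnitAddCircle => rt p.1 p.2) :=
      continuous_snd.add ((AddCircle.continuous_mk' (1 : ℝ)).comp continuous_fst)
    exact h.measurable
  zero := fun x => by
    unfold rt
    rw [AddCircle.coe_zero, add_zero]
  add := fun s t x => by
    unfold rt
    rw [AddCircle.coe_add, add_assoc, add_comm (t : UnitAddCircle)]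
  mp := fun t => measurePreserving_add_right volume _

lemma flowInv_rt : flowInv rt = ⊥ := by
  rw [eq_bot_iff]
  intro A hA
  have hA' : ∀ t : ℝ, MeasurableSet[MeasurableSpace.invariants (rt t)] A :=
    fun t => MeasurableSpace.measurableSet_iInf.mp hA t
  rw [MeasurableSpace.measurableSet_bot_iff]
  rcases A.eq_empty_or_nonempty with h | ⟨a, ha⟩
  · exact Or.inl h
  · refine Or.inr (Set.eq_univ_of_forall fun b => ?_)
    obtain ⟨t, ht⟩ := QuotientAddGroup.mk_surjective (a - b)
    have h1 := (MeasurableSpace.measurableSet_invariants.mp (hA' t)).2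
    rw [← h1]
    show rt t b ∈ A
    have h2 : rt t b = a := by
      have h3 : (t : UnitAddCircle) = a - b := ht
      unfold rt
      rw [h3]
      abel
    rw [h2]
    exact ha

lemma eqd_aux (hC : Pool.Agent.R497.TD.S_CTRL.{0}) (P : Polynomial ℝ) (hP : 0 < P.natDegree) (s : ℝ) (hs : 0 < s) :
    ∀ᵐ a : ℝ, ∀ᶠ N : ℕ in atTop,
      (1 / (N : ℝ)) * (((Icc 1 N).filter fun n : ℕ => 1 - s ≤ Int.fract (a * P.eval (n : ℝ))).card : ℝ) ≤
        5 / 2 * s := by
  have := prob_circle
  set e : UnitAddCircle → ℝ := (Metric.closedBall (0 : UnitAddCircle) s).indicator (fun _ => (1 : ℝ)) with he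
  have hem : Measurable e := measurable_const.indicator Metric.isClosed_closedBall.measurableSet
  have heb : ∀ x, |e x| ≤ 1 := by
    intro x
    by_cases hx : x ∈ Metric.closedBall (0 : UnitAddCircle) s
    · rw [he, Set.indicator_of_mem hx]; simp
    · rw [he, Set.indicator_of_notMem hx]; simp
  have he0 : ∀ x, 0 ≤ e x := fun x => Set.indicator_nonneg (fun _ _ => zero_le_one) x
  have hint : ∫ x, e x = min 1 (2 * s) := by
    rw [he, integral_indicator_const (1 : ℝ) Metric.isClosed_closedBall.measurableSet, Measure.real,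
      AddCircle.volume_closedBall, ENNReal.toReal_ofReal (by positivity), smul_eq_mul, mul_one]
  have h1 := hC UnitAddCircle volume rt e P rt_flow hem ⟨1, heb⟩ hP
  rw [flowInv_rt, condExp_bot, hint] at h1
  filter_upwards [h1] with a ha
  have hd := Measure.dense_of_ae ha
  have hU : IsOpen ((fun r : ℝ => (r : UnitAddCircle)) '' Set.Ioo 0 s) :=
    QuotientAddGroup.isOpenMap_coe _ isOpen_Ioo
  obtain ⟨x, hxU, hx⟩ := hd.inter_open_nonempty _ hU ⟨_, ⟨s / 2, ⟨by linarith, by linarith⟩, rfl⟩⟩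
  obtain ⟨r, hr, rfl⟩ := hxU
  have hlt : min 1 (2 * s) < 5 / 2 * s := lt_of_le_of_lt (min_le_right _ _) (by linarith)
  have hx' : ∀ᶠ N : ℕ in atTop, (1 / (N : ℝ)) * ∑ n ∈ Icc 1 N, e (rt (a * P.eval (n : ℝ)) (r : UnitAddCircle)) <
      5 / 2 * s := Tendsto.eventually_lt_const hlt hx
  filter_upwards [hx'] with N hN
  refine le_trans ?_ hN.le
  refine mul_le_mul_of_nonneg_left ?_ (by positivity)
  rw [Finset.card_filter, Nat.cast_sum]
  refine Finset.sum_le_sum fun n _ => ?_
  split_ifs with hc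
  · have hmem : rt (a * P.eval (n : ℝ)) (r : UnitAddCircle) ∈ Metric.closedBall (0 : UnitAddCircle) s := by
      rw [mem_closedBall_zero_iff]
      unfold rt
      rw [← AddCircle.coe_add, UnitAddCircle.norm_eq]
      refine (round_le _ (⌊a * P.eval (n : ℝ)⌋ + 1)).trans ?_
      have h2 := Int.fract_lt_one (a * P.eval (n : ℝ))
      have h3 : r + a * P.eval (n : ℝ) - ((⌊a * P.eval (n : ℝ)⌋ + 1 : ℤ) : ℝ) =
          r + Int.fract (a * P.eval (n : ℝ)) - 1 := by
        rw [Int.fract]; push_cast; ring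
      rw [h3, abs_le]
      constructor
      · linarith [hr.1]
      · linarith [hr.2]
    rw [he, Set.indicator_of_mem hmem]
    simp
  · simpa using he0 _

theorem eqd_of_ctrl (hC : Pool.Agent.R497.TD.S_CTRL.{0}) : S_EQD := by
  intro P hP
  have h1 : ∀ᵐ a : ℝ, ∀ k : ℕ, ∀ᶠ N : ℕ in atTop,
      (1 / (N : ℝ)) * (((Icc 1 N).filter fun n : ℕ =>
        1 - 1 / ((k : ℝ) + 1) ≤ Int.fract (a * P.eval (n : ℝ))).card : ℝ) ≤ 5 / 2 * (1 / ((k : ℝ) + 1)) :=
    ae_all_iff.2 fun k => eqd_aux hC P hP _ (by positivity)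
  filter_upwards [h1] with a ha s hs
  by_cases hs5 : 1 / 5 ≤ s
  · refine Eventually.of_forall fun N => ?_
    have h2 : (((Icc 1 N).filter fun n : ℕ => 1 - s ≤ Int.fract (a * P.eval (n : ℝ))).card : ℝ) ≤ N := by
      have h3 := Finset.card_filter_le (Icc 1 N) (fun n : ℕ => 1 - s ≤ Int.fract (a * P.eval (n : ℝ)))
      rw [Nat.card_Icc, Nat.add_sub_cancel] at h3
      exact_mod_cast h3
    have h3 : (1 / (N : ℝ)) * (((Icc 1 N).filter fun n : ℕ => 1 - s ≤ Int.fract (a * P.eval (n : ℝ))).card : ℝ) ≤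
        (1 / (N : ℝ)) * N := mul_le_mul_of_nonneg_left h2 (by positivity)
    have h4 : (1 / (N : ℝ)) * N ≤ 1 := by
      rcases Nat.eq_zero_or_pos N with h | h
      · simp [h]
      · have : (0 : ℝ) < N := by exact_mod_cast h
        rw [one_div, inv_mul_cancel₀ this.ne']
    linarith
  · rw [not_le] at hs5
    have hinv : 5 < 1 / s := by
      rw [lt_div_iff₀ hs]; linarith
    obtain ⟨k, hk⟩ : ∃ k : ℕ, ⌊1 / s⌋₊ = k + 1 := by
      have : 0 < ⌊1 / s⌋₊ := Nat.floor_pos.mpr (by linarith)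
      exact ⟨⌊1 / s⌋₊ - 1, by omega⟩
    have hk1 : ((k : ℝ) + 1) ≤ 1 / s := by
      have := Nat.floor_le (by linarith : (0 : ℝ) ≤ 1 / s)
      rw [hk] at this
      exact_mod_cast this
    have hk2 : 1 / s < (k : ℝ) + 1 + 1 := by
      have := Nat.lt_floor_add_one (1 / s)
      rw [hk] at this
      exact_mod_cast this
    have hkp : (0 : ℝ) < (k : ℝ) + 1 := by positivity
    have hs1 : s ≤ 1 / ((k : ℝ) + 1) := by
      rw [le_div_iff₀ hkp]
      rw [le_div_iff₀ hs] at hk1
      linarith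
    have hs2 : 1 / ((k : ℝ) + 1) ≤ 2 * s := by
      rw [div_le_iff₀ hkp]
      rw [div_lt_iff₀ hs] at hk2
      nlinarith
    filter_upwards [ha k] with N hN
    have h5 : (((Icc 1 N).filter fun n : ℕ => 1 - s ≤ Int.fract (a * P.eval (n : ℝ))).card : ℝ) ≤
        (((Icc 1 N).filter fun n : ℕ =>
          1 - 1 / ((k : ℝ) + 1) ≤ Int.fract (a * P.eval (n : ℝ))).card : ℝ) := by
      refine Nat.cast_le.mpr (Finset.card_le_card fun n hn => ?_)
      rw [mem_filter] at hn ⊢
      exact ⟨hn.1, by linarith [hn.2]⟩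
    have h6 := mul_le_mul_of_nonneg_left h5 (by positivity : (0 : ℝ) ≤ 1 / (N : ℝ))
    linarith

theorem t_EQD : S_EQD := eqd_of_ctrl Pool.Agent.R392.TD.t_CTRL

end Pool.Agent.R21.TM
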